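import Mathlib

set_option autoImplicit false

/-!
# Assouad dimension (covers by arbitrary sets)
-/

namespace Pool.Agent.V1197.AP

open Set Metric Filter Topology

/-- `A` can be covered by `n` sets of diameter at most `r`, i.e. `N_r(A) ≤ n`. -/
def HasCover {X : Type*} [PseudoMetricSpace X] (A : Set X) (r : ℝ) (n : ℕ) : Prop :=
  ∃ U : Fin n → Set X, (∀ i, ∀ x ∈ U i, ∀ y ∈ U i, dist x y ≤ r) ∧ A ⊆ ⋃ i, U i

/-- there is `C > 0` with `N_r(B(x,R) ∩ F) ≤ C (R/r)^s` for all `0 < r < R` and `x ∈ F` -/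
def AssouadBound {X : Type*} [PseudoMetricSpace X] (F : Set X) (s : ℝ) : Prop :=
  ∃ C : ℝ, 0 < C ∧ ∀ R r : ℝ, 0 < r → r < R → ∀ x ∈ F,
    ∃ n : ℕ, HasCover (ball x R ∩ F) r n ∧ (n : ℝ) ≤ C * (R / r) ^ s

/-- the Assouad dimension: infimum of all `s ≥ 0` satisfying `AssouadBound F s` -/
noncomputable def assouadDim {X : Type*} [PseudoMetricSpace X] (F : Set X) : ℝ :=
  sInf {s : ℝ | 0 ≤ s ∧ AssouadBound F s}

/-- covers from codes -/
theorem hasCover_of_code {X κ : Type*} [PseudoMetricSpace X] [Fintype κ] {A : Set X} {r : ℝ}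
    (code : X → κ) (h : ∀ x ∈ A, ∀ y ∈ A, code x = code y → dist x y ≤ r) :
    HasCover A r (Fintype.card κ) := by
  refine ⟨fun i => {x | x ∈ A ∧ Fintype.equivFin κ (code x) = i}, ?_, fun x hx => ?_⟩
  · rintro i x ⟨hx, hxi⟩ y ⟨hy, hyi⟩
    exact h x hx y hy ((Fintype.equivFin κ).injective (hxi.trans hyi.symm))
  · exact mem_iUnion.2 ⟨_, hx, rfl⟩

/-- a lower bound for the Assouad dimension: arbitrarily long approximate arithmetic
progressions -/
theorem one_le_of_progressions {X : Type*} [PseudoMetricSpace X] {F : Set X} {s : ℝ}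
    (h : ∀ M : ℕ, ∃ lam : ℝ, 0 < lam ∧ ∃ y : Fin (M + 1) → X, (∀ g, y g ∈ F) ∧
      (∀ g g', g ≠ g' → lam / 2 ≤ dist (y g) (y g')) ∧
      ∀ g g', dist (y g) (y g') ≤ (M + 1) * lam)
    (hb : AssouadBound F s) : 1 ≤ s := by
  classical
  obtain ⟨C, hC, hb⟩ := hb
  by_contra hcon
  push Not at hcon
  have key : ∀ M : ℕ, ((M : ℝ) + 1) ^ (1 - s) ≤ C * (6 : ℝ) ^ s := by
    intro M
    obtain ⟨lam, hlam, y, hyF, hysep, hyD⟩ := h M
    have hM0 : (0 : ℝ) ≤ M := Nat.cast_nonneg M
    have hM : (0 : ℝ) < M + 1 := by positivity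
    have hrR : lam / 3 < 2 * (M + 1) * lam := by nlinarith
    obtain ⟨n, ⟨U, hU, hcov⟩, hn⟩ := hb (2 * (M + 1) * lam) (lam / 3) (by positivity) hrR
      (y 0) (hyF _)
    have hmem : ∀ g, ∃ i, y g ∈ U i := by
      intro g
      have : y g ∈ ball (y 0) (2 * (M + 1) * lam) ∩ F := by
        refine ⟨?_, hyF g⟩
        rw [mem_ball]
        refine (hyD g _).trans_lt ?_
        have : 0 < (M + 1 : ℝ) * lam := by positivity
        nlinarith
      simpa using hcov this
    choose i hi using hmem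
    have hinj : Function.Injective i := by
      intro g g' hgg
      by_contra hne
      have h1 := hysep g g' hne
      have h2 := hU (i g) (y g) (hi g) (y g') (hgg ▸ hi g')
      linarith
    have hcard := Fintype.card_le_of_injective i hinj
    rw [Fintype.card_fin, Fintype.card_fin] at hcard
    have h1 : (M : ℝ) + 1 ≤ n := by exact_mod_cast hcard
    have h2 : 2 * (M + 1) * lam / (lam / 3) = 6 * (M + 1) := by
      field_simp
      ring
    rw [h2, Real.mul_rpow (by norm_num) hM.le] at hn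
    rw [Real.rpow_sub hM, Real.rpow_one, div_le_iff₀ (by positivity)]
    linarith
  have htend : Tendsto (fun M : ℕ => ((M : ℝ) + 1) ^ (1 - s)) atTop atTop :=
    (tendsto_rpow_atTop (by linarith)).comp
      (tendsto_atTop_add_const_right _ _ tendsto_natCast_atTop_atTop)
  obtain ⟨M, hM⟩ := (htend.eventually_gt_atTop (C * (6 : ℝ) ^ s)).exists
  exact absurd (key M) (not_le.2 hM)

end Pool.Agent.V1197.AP
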