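import Mathlib

set_option autoImplicit false

/-!
# Digit expansions in base `100`
-/

namespace Pool.Agent.V1197.AP

open Set Filter Topology

/-- `∑ 100^{-n} a_n / 2` -/
noncomputable def val (a : ℕ → ℝ) : ℝ := ∑' n, (1 / 100 : ℝ) ^ n * (a n / 2)

theorem summable_val {a : ℕ → ℝ} {B : ℝ} (ha : ∀ n, |a n| ≤ B) :
    Summable fun n => (1 / 100 : ℝ) ^ n * (a n / 2) := by
  refine Summable.of_norm_bounded (g := fun n => (1 / 100 : ℝ) ^ n * (B / 2))
    ((summable_geometric_of_lt_one (by norm_num) (by norm_num)).mul_right _) fun n => ?_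
  rw [norm_mul, norm_pow, Real.norm_eq_abs, Real.norm_eq_abs,
    abs_of_pos (by norm_num : (0 : ℝ) < 1 / 100), abs_div, abs_two]
  have := ha n
  gcongr

theorem val_succ {a : ℕ → ℝ} {B : ℝ} (ha : ∀ n, |a n| ≤ B) :
    val a = a 0 / 2 + (1 / 100) * val (fun n => a (n + 1)) := by
  unfold val
  rw [(summable_val ha).tsum_eq_zero_add, ← tsum_mul_left]
  simp only [pow_zero, one_mul]
  congr 1
  refine tsum_congr fun n => ?_
  rw [pow_succ]
  ring

theorem abs_val_le {a : ℕ → ℝ} {B : ℝ} (ha : ∀ n, |a n| ≤ B) : |val a| ≤ B * (50 / 99) := by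
  have h1 := (hasSum_geometric_of_lt_one (by norm_num : (0 : ℝ) ≤ 1 / 100) (by norm_num)).mul_right
    (B / 2)
  have h2 : (1 - 1 / 100 : ℝ)⁻¹ * (B / 2) = B * (50 / 99) := by norm_num; ring
  rw [h2] at h1
  rw [← Real.norm_eq_abs]
  refine tsum_of_norm_bounded h1 fun n => ?_
  rw [norm_mul, norm_pow, Real.norm_eq_abs, Real.norm_eq_abs,
    abs_of_pos (by norm_num : (0 : ℝ) < 1 / 100), abs_div, abs_two]
  have := ha n
  gcongr

theorem val_sub {a b : ℕ → ℝ} {B : ℝ} (ha : ∀ n, |a n| ≤ B) (hb : ∀ n, |b n| ≤ B) :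
    val a - val b = val fun n => a n - b n := by
  unfold val
  rw [← (summable_val ha).tsum_sub (summable_val hb)]
  exact tsum_congr fun n => by ring

/-- sequences agreeing on the first `n` digits are close -/
theorem abs_val_le_of_agree {a : ℕ → ℝ} (ha : ∀ n, |a n| ≤ 2) :
    ∀ (n : ℕ), (∀ i < n, a i = 0) → |val a| ≤ (1 / 100) ^ n * 2 := by
  intro n
  induction n generalizing a with
  | zero =>
    intro _
    have := abs_val_le ha
    rw [pow_zero]
    linarith
  | succ n ih =>
    intro h
    have h1 := ih (a := fun n => a (n + 1)) (fun n => ha _) (fun i hi => h (i + 1) (by omega))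
    rw [val_succ ha, h 0 (by omega), zero_div, zero_add, abs_mul, pow_succ,
      abs_of_pos (by norm_num : (0 : ℝ) < 1 / 100)]
    linarith

/-- sequences whose first difference occurs early are far apart -/
theorem le_abs_val {a : ℕ → ℝ} (ha : ∀ n, |a n| ≤ 2) :
    ∀ (n : ℕ), (∀ i < n, a i = 0) → 1 / 10 ≤ |a n| → (1 / 100) ^ n / 50 ≤ |val a| := by
  intro n
  induction n generalizing a with
  | zero =>
    intro _ h
    have h1 := abs_val_le (a := fun n => a (n + 1)) (B := 2) (fun n => ha _)
    rw [val_succ ha]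
    have h2 : |a 0 / 2| - |(1 / 100) * val (fun n => a (n + 1))|
        ≤ |a 0 / 2 + (1 / 100) * val (fun n => a (n + 1))| := by
      have := abs_sub_abs_le_abs_sub (a 0 / 2) (-((1 / 100) * val (fun n => a (n + 1))))
      rwa [abs_neg, sub_neg_eq_add] at this
    rw [abs_div, abs_two, abs_mul, abs_of_pos (by norm_num : (0 : ℝ) < 1 / 100)] at h2
    rw [pow_zero]
    linarith
  | succ n ih =>
    intro h h'
    have h1 := ih (a := fun n => a (n + 1)) (fun n => ha _) (fun i hi => h (i + 1) (by omega)) h'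
    rw [val_succ ha, h 0 (by omega), zero_div, zero_add, abs_mul, pow_succ,
      abs_of_pos (by norm_num : (0 : ℝ) < 1 / 100)]
    linarith

/-! ### The number `t` -/

/-- the indicator of the nonzero squares -/
noncomputable def chi (i : ℕ) : ℝ := by
  classical exact if 1 ≤ i ∧ IsSquare i then 1 else 0

theorem chi_nonneg (i : ℕ) : 0 ≤ chi i := by unfold chi; split_ifs <;> norm_num

theorem chi_le (i : ℕ) : chi i ≤ 1 := by unfold chi; split_ifs <;> norm_num

theorem chi_cases (i : ℕ) : chi i = 0 ∨ chi i = 1 := by unfold chi; split_ifs <;> simp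

theorem chi_sq (K : ℕ) : chi ((K + 1) ^ 2) = 1 := by
  unfold chi
  rw [if_pos ⟨Nat.one_le_pow _ _ (by omega), ⟨K + 1, by ring⟩⟩]

theorem chi_between {K i : ℕ} (h1 : K ^ 2 < i) (h2 : i < (K + 1) ^ 2) : chi i = 0 := by
  unfold chi
  rw [if_neg]
  rintro ⟨-, r, rfl⟩
  have h3 : K < r := by nlinarith
  have h4 : r < K + 1 := by nlinarith
  omega

/-- the number `t = ∑_{k ≥ 1} 100^{-k²}` -/
noncomputable def t : ℝ := ∑' i, (1 / 100 : ℝ) ^ i * chi i

theorem summable_t : Summable fun i => (1 / 100 : ℝ) ^ i * chi i := by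
  refine Summable.of_nonneg_of_le (fun i => mul_nonneg (by positivity) (chi_nonneg i))
    (fun i => mul_le_of_le_one_right (by positivity) (chi_le i))
    (summable_geometric_of_lt_one (by norm_num) (by norm_num))

/-- the tails of `t` -/
noncomputable def tail (m : ℕ) : ℝ := t - ∑ i ∈ Finset.range m, (1 / 100 : ℝ) ^ i * chi i

theorem tail_nonneg (m : ℕ) : 0 ≤ tail m := by
  unfold tail t
  rw [sub_nonneg]
  exact summable_t.sum_le_tsum _ fun i _ => mul_nonneg (by positivity) (chi_nonneg i)

theorem tail_le (m : ℕ) : tail m ≤ 2 * (1 / 100) ^ m := by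
  have h1 := summable_t.sum_add_tsum_nat_add m
  have h2 : tail m = ∑' i, (1 / 100 : ℝ) ^ (i + m) * chi (i + m) := by
    unfold tail t
    rw [← h1]; ring
  rw [h2]
  have h3 := (hasSum_geometric_of_lt_one (by norm_num : (0 : ℝ) ≤ 1 / 100) (by norm_num)).mul_right
    ((1 / 100 : ℝ) ^ m)
  have h4 : ∑' i, (1 / 100 : ℝ) ^ (i + m) * chi (i + m) ≤ (1 - 1 / 100 : ℝ)⁻¹ * (1 / 100) ^ m := by
    rw [← h3.tsum_eq]
    refine Summable.tsum_le_tsum (fun i => ?_)
      ((summable_nat_add_iff (f := fun i => (1 / 100 : ℝ) ^ i * chi i) m).2 summable_t) h3.summable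
    rw [pow_add]
    exact mul_le_of_le_one_right (by positivity) (chi_le _)
  refine h4.trans ?_
  gcongr
  norm_num

theorem tail_succ (m : ℕ) : tail m = (1 / 100) ^ m * chi m + tail (m + 1) := by
  unfold tail
  rw [Finset.sum_range_succ]
  ring

theorem tail_eq {m n : ℕ} (hmn : m ≤ n) (h : ∀ i, m ≤ i → i < n → chi i = 0) :
    tail m = tail n := by
  induction n, hmn using Nat.le_induction with
  | base => rfl
  | succ n hmn ih =>
    rw [ih fun i h1 h2 => h i h1 (by omega), tail_succ n, h n hmn (by omega)]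
    ring

theorem t_nonneg : 0 ≤ t := by
  have := tail_nonneg 0
  unfold tail at this
  simpa using this

theorem t_le : t ≤ 1 := by
  have h0 : tail 0 = t := by unfold tail; simp
  have h1 := tail_succ 0
  have h2 : chi 0 = 0 := by unfold chi; simp
  have h3 := tail_le 1
  rw [h2, mul_zero, zero_add] at h1
  rw [← h0, h1]
  norm_num at h3 ⊢
  linarith

/-- the digits `0, 1, t` -/
noncomputable def al : Fin 3 → ℝ := ![0, 1, t]

theorem abs_al (i : Fin 3) : |al i| ≤ 1 := by
  have h1 := t_nonneg
  have h2 := t_le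
  fin_cases i <;> simp [al, abs_of_nonneg, h1, h2]

/-- the set `A` -/
def A₀ : Set ℝ := {x | ∃ a : ℕ → Fin 3, x = val fun n => al (a n)}

theorem A₀_cons {x : ℝ} (hx : x ∈ A₀) (i : Fin 3) : (1 / 100) * x + al i / 2 ∈ A₀ := by
  obtain ⟨a, rfl⟩ := hx
  refine ⟨fun n => Nat.casesOn n i a, ?_⟩
  have h := val_succ (a := fun n => al (Nat.casesOn n i a)) (B := 1) (fun n => abs_al _)
  rw [h]
  exact add_comm _ _

theorem A₀_prefix (a : ℕ → Fin 3) : ∀ (n : ℕ) {x : ℝ}, x ∈ A₀ →
    (1 / 100) ^ n * x + (∑ i ∈ Finset.range n, (1 / 100) ^ i * al (a i)) / 2 ∈ A₀ := by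
  intro n
  induction n with
  | zero => intro x hx; simpa using hx
  | succ n ih =>
    intro x hx
    have h1 := ih (A₀_cons hx (a n))
    rw [Finset.sum_range_succ]
    convert h1 using 1
    ring

theorem A₀_zero : (0 : ℝ) ∈ A₀ := by
  refine ⟨fun _ => 0, ?_⟩
  simp [val, al]

/-- approximate arithmetic progressions in `A` -/
theorem progression (M : ℕ) : ∀ η : ℝ, 0 < η → ∃ (N : ℕ) (x : ℕ → ℝ), (∀ j ≤ M, x j ∈ A₀) ∧
    ∀ j ≤ M, |x j - x 0 - j * ((1 / 100) ^ N / 2)| ≤ η * ((1 / 100) ^ N / 2) := by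
  induction M with
  | zero =>
    intro η hη
    refine ⟨0, fun _ => 0, fun j _ => A₀_zero, fun j hj => ?_⟩
    have : j = 0 := by omega
    rw [this]
    simp
    positivity
  | succ M ih =>
    intro η hη
    obtain ⟨N, x, hx, hx'⟩ := ih (η / 2) (by positivity)
    -- choose `K`
    obtain ⟨K₀, hK₀⟩ := exists_pow_lt_of_lt_one (show 0 < η / 4 by positivity)
      (show (1 / 100 : ℝ) < 1 by norm_num)
    set K := max N K₀ with hK
    set N' := (K + 1) ^ 2 with hN'
    have hKN : N ≤ K := le_max_left _ _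
    have hle : N + (K ^ 2 + 1) ≤ N' := by rw [hN']; nlinarith
    set n := N' - N with hn
    have hnN : n + N = N' := by omega
    have hnK : K ^ 2 < n := by omega
    -- tails
    have ht1 : tail n = tail N' := tail_eq (by omega) fun i h1 h2 =>
      chi_between (K := K) (by omega) h2
    have ht2 : tail (N' + 1) = tail ((K + 2) ^ 2) :=
      tail_eq (by rw [hN']; nlinarith) fun i h1 h2 => chi_between (K := K + 1) (by omega) h2
    have ht3 : tail n = (1 / 100) ^ N' + tail ((K + 2) ^ 2) := by
      rw [ht1, tail_succ, ht2, hN', chi_sq, mul_one]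
    have ht4 : |tail n - (1 / 100) ^ N'| ≤ η / 2 * (1 / 100) ^ N' := by
      rw [ht3, add_sub_cancel_left, abs_of_nonneg (tail_nonneg _)]
      refine (tail_le _).trans ?_
      have h1 : (K + 2) ^ 2 = N' + (2 * K + 3) := by rw [hN']; ring
      rw [h1, pow_add]
      have h2 : (1 / 100 : ℝ) ^ (2 * K + 3) ≤ (1 / 100) ^ K₀ :=
        pow_le_pow_of_le_one (by norm_num) (by norm_num) (by
          have := le_max_right N K₀
          omega)
      have h3 : (0 : ℝ) < (1 / 100) ^ N' := by positivity
      nlinarith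
    -- the new points
    set y : ℕ → ℝ := fun j => if j ≤ M then
      (1 / 100) ^ n * x j + (∑ i ∈ Finset.range n, (1 / 100) ^ i * chi i) / 2
      else (1 / 100) ^ n * x M + t / 2 with hy
    have hpow : (1 / 100 : ℝ) ^ N' = (1 / 100) ^ n * (1 / 100) ^ N := by rw [← hnN, pow_add]
    have hold : ∀ j ≤ M, |y j - y 0 - j * ((1 / 100) ^ N' / 2)| ≤ η / 2 * ((1 / 100) ^ N' / 2) := by
      intro j hj
      rw [hy]
      simp only [hj, if_true, Nat.zero_le]
      have h1 : (1 / 100) ^ n * x j + (∑ i ∈ Finset.range n, (1 / 100) ^ i * chi i) / 2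
          - ((1 / 100) ^ n * x 0 + (∑ i ∈ Finset.range n, (1 / 100) ^ i * chi i) / 2)
          - j * ((1 / 100) ^ N' / 2)
          = (1 / 100) ^ n * (x j - x 0 - j * ((1 / 100) ^ N / 2)) := by
        rw [hpow]; ring
      rw [h1, abs_mul, abs_of_pos (by positivity : (0 : ℝ) < (1 / 100) ^ n), hpow]
      calc (1 / 100) ^ n * |x j - x 0 - j * ((1 / 100) ^ N / 2)|
          ≤ (1 / 100) ^ n * (η / 2 * ((1 / 100) ^ N / 2)) := by
            gcongr
            exact hx' j hj
        _ = η / 2 * ((1 / 100) ^ n * (1 / 100) ^ N / 2) := by ring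
    refine ⟨N', y, fun j hj => ?_, fun j hj => ?_⟩
    · rw [hy]
      by_cases h : j ≤ M
      · simp only [h, if_true]
        classical
        have h1 := A₀_prefix (fun i => if chi i = 1 then 1 else 0) n (hx j h)
        convert h1 using 4 with i
        rcases chi_cases i with h2 | h2
        · rw [h2]; simp [al]
        · rw [h2]; simp [al]
      · simp only [h, if_false]
        have h1 := A₀_prefix (fun i => if i = 0 then 2 else 0) n (hx M le_rfl)
        convert h1 using 3
        rw [Finset.sum_eq_single 0]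
        · simp [al]
        · intro b _ hb
          simp [hb, al]
        · intro h0
          exfalso
          apply h0
          rw [Finset.mem_range]
          omega
    · rcases Nat.lt_or_ge M j with h | h
      · have hj' : j = M + 1 := by omega
        have h1 := hold M le_rfl
        have h2 : y j - y M = tail n / 2 := by
          rw [hy, hj']
          simp only [show ¬ (M + 1 ≤ M) by omega, if_false, le_refl, if_true]
          unfold tail
          ring
        have h3 : y j - y 0 - j * ((1 / 100) ^ N' / 2)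
            = (y M - y 0 - M * ((1 / 100) ^ N' / 2)) + (tail n - (1 / 100) ^ N') / 2 := by
          have : y j = y M + tail n / 2 := by rw [← h2]; ring
          rw [this, hj']
          push_cast
          ring
        rw [h3]
        refine (abs_add_le _ _).trans ?_
        rw [abs_div, abs_two]
        linarith
      · refine (hold j h).trans ?_
        have : (0 : ℝ) < (1 / 100) ^ N' := by positivity
        nlinarith

end Pool.Agent.V1197.AP
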