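import Pool.Agent.V1197.AP.SetF

set_option autoImplicit false

/-!
# Dimensions of the projections
-/

namespace Pool.Agent.V1197.AP

open Set Metric Filter Topology MeasureTheory
open scoped ENNReal NNReal

theorem norm_sq_three (v : Sp 3) : ‖v‖ ^ 2 = v 0 ^ 2 + v 1 ^ 2 + v 2 ^ 2 := by
  rw [EuclideanSpace.norm_sq_eq]
  simp [Fin.sum_univ_three]

theorem inner_three (v w : Sp 3) : inner ℝ v w = v 0 * w 0 + v 1 * w 1 + v 2 * w 2 := by
  simp [PiLp.inner_apply, Fin.sum_univ_three, mul_comm]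

variable (θ : sphere (0 : Sp 3) 1)

theorem norm_theta : ‖(θ : Sp 3)‖ = 1 := by simp

/-- the projection -/
noncomputable def pr (x : Sp 3) : Sp 3 := (Submodule.span ℝ {(θ : Sp 3)})ᗮ.starProjection x

theorem shadow_eq (F : Set (Sp 3)) : shadow θ F = pr θ '' F := rfl

theorem pr_apply (x : Sp 3) : pr θ x = x - (inner ℝ (θ : Sp 3) x : ℝ) • (θ : Sp 3) := by
  unfold pr
  rw [Submodule.starProjection_orthogonal']
  simp only [_root_.sub_apply, one_apply_eq_self]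
  rw [Submodule.starProjection_unit_singleton ℝ (norm_theta θ)]

theorem pr_sub (x y : Sp 3) : pr θ x - pr θ y = pr θ (x - y) := by
  unfold pr; rw [map_sub]

theorem inner_pr (x : Sp 3) : inner ℝ (θ : Sp 3) (pr θ x) = (0 : ℝ) := by
  rw [pr_apply, inner_sub_right, inner_smul_right, real_inner_self_eq_norm_sq, norm_theta]
  ring

/-- the functional -/
noncomputable def ell (x : Sp 3) : ℝ := -(θ : Sp 3) 2 * x 1 + (θ : Sp 3) 1 * x 2

theorem ell_pr (x : Sp 3) : ell θ (pr θ x) = ell θ x := by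
  unfold ell
  rw [pr_apply]
  simp
  ring

theorem ell_sub (x y : Sp 3) : ell θ x - ell θ y = ell θ (x - y) := by
  unfold ell; simp; ring

theorem theta_sq : (θ : Sp 3) 0 ^ 2 + (θ : Sp 3) 1 ^ 2 + (θ : Sp 3) 2 ^ 2 = 1 := by
  rw [← norm_sq_three, norm_theta, one_pow]

theorem norm_identity {v : Sp 3} (hv : inner ℝ (θ : Sp 3) v = (0 : ℝ)) :
    ((θ : Sp 3) 1 ^ 2 + (θ : Sp 3) 2 ^ 2) * ‖v‖ ^ 2 = ell θ v ^ 2 + v 0 ^ 2 := by
  rw [norm_sq_three]
  rw [inner_three] at hv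
  have h1 := theta_sq θ
  unfold ell
  have h2 : (θ : Sp 3) 1 * v 1 + (θ : Sp 3) 2 * v 2 = - ((θ : Sp 3) 0 * v 0) := by linarith
  have h3 : ((θ : Sp 3) 1 * v 1 + (θ : Sp 3) 2 * v 2) ^ 2 = ((θ : Sp 3) 0 * v 0) ^ 2 := by
    rw [h2]; ring
  have h4 : (θ : Sp 3) 0 ^ 2 = 1 - (θ : Sp 3) 1 ^ 2 - (θ : Sp 3) 2 ^ 2 := by linarith
  have h5 : ((θ : Sp 3) 0 * v 0) ^ 2 = (1 - (θ : Sp 3) 1 ^ 2 - (θ : Sp 3) 2 ^ 2) * v 0 ^ 2 := by
    rw [mul_pow, h4]
  nlinarith [h3, h5]

/-- the digits of `ell` -/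
noncomputable def lam (p : Fin 3 × Fin 3) : ℝ := -(θ : Sp 3) 2 * be p.2 + (θ : Sp 3) 1 * ga p.2

theorem abs_theta_le (j : Fin 3) : |(θ : Sp 3) j| ≤ 1 := by
  have h := theta_sq θ
  rw [← sq_le_one_iff_abs_le_one]
  fin_cases j
  · change (θ : Sp 3) 0 ^ 2 ≤ 1
    nlinarith [sq_nonneg ((θ : Sp 3) 1), sq_nonneg ((θ : Sp 3) 2)]
  · change (θ : Sp 3) 1 ^ 2 ≤ 1
    nlinarith [sq_nonneg ((θ : Sp 3) 0), sq_nonneg ((θ : Sp 3) 2)]
  · change (θ : Sp 3) 2 ^ 2 ≤ 1
    nlinarith [sq_nonneg ((θ : Sp 3) 0), sq_nonneg ((θ : Sp 3) 1)]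

theorem abs_lam (p : Fin 3 × Fin 3) : |lam θ p| ≤ 1 := by
  obtain ⟨a, b⟩ := p
  have h1 := abs_theta_le θ 1
  have h2 := abs_theta_le θ 2
  unfold lam
  fin_cases b <;> simp [be, ga] <;> assumption

theorem ell_Phi (ω : ℕ → Fin 3 × Fin 3) : ell θ (Phi ω) = val fun n => lam θ (ω n) := by
  have h1 := summable_val (a := fun n => be (ω n).2) (B := 1) (fun n => abs_be _)
  have h2 := summable_val (a := fun n => ga (ω n).2) (B := 1) (fun n => abs_ga _)
  have h3 : ell θ (Phi ω) = -(θ : Sp 3) 2 * (val fun n => be (ω n).2)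
      + (θ : Sp 3) 1 * (val fun n => ga (ω n).2) := by
    simp [ell, Phi]
  rw [h3]
  unfold val
  rw [← tsum_mul_left, ← tsum_mul_left, ← (h1.mul_left _).tsum_add (h2.mul_left _)]
  refine tsum_congr fun n => ?_
  unfold lam
  ring

/-- the open set of normals -/
def U₀ : Set (sphere (0 : Sp 3) 1) :=
  {θ | 1 / 10 < |(θ : Sp 3) 1| ∧ 1 / 10 < |(θ : Sp 3) 2| ∧ 1 / 10 < |(θ : Sp 3) 1 + (θ : Sp 3) 2|}

theorem isOpen_U₀ : IsOpen U₀ := by
  have h : ∀ j : Fin 3, Continuous fun θ : sphere (0 : Sp 3) 1 => (θ : Sp 3) j := fun j =>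
    (continuous_apply j).comp ((PiLp.continuous_ofLp 2 _).comp continuous_subtype_val)
  exact (isOpen_lt continuous_const (h 1).abs).inter ((isOpen_lt continuous_const (h 2).abs).inter
    (isOpen_lt continuous_const ((h 1).add (h 2)).abs))

theorem nonempty_U₀ : U₀.Nonempty := by
  refine ⟨⟨!₂[0, 3 / 5, 4 / 5], ?_⟩, ?_⟩
  · rw [mem_sphere_zero_iff_norm]
    have h : ‖(!₂[0, 3 / 5, 4 / 5] : Sp 3)‖ ^ 2 = 1 := by
      rw [norm_sq_three]
      simp
      norm_num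
    have h1 : 0 ≤ ‖(!₂[0, 3 / 5, 4 / 5] : Sp 3)‖ := norm_nonneg _
    nlinarith
  · refine ⟨?_, ?_, ?_⟩
    · simp; rw [abs_of_pos] <;> norm_num
    · simp; rw [abs_of_pos] <;> norm_num
    · simp; rw [abs_of_pos] <;> norm_num

variable {θ}

theorem lam_sep (hθ : θ ∈ U₀) {p q : Fin 3 × Fin 3} (h : p.2 ≠ q.2) :
    1 / 10 ≤ |lam θ p - lam θ q| := by
  obtain ⟨h1, h2, h3⟩ := hθ
  obtain ⟨a, b⟩ := p
  obtain ⟨a', b'⟩ := q
  simp only at h
  have h4 : |-(θ : Sp 3) 2 - (θ : Sp 3) 1| = |(θ : Sp 3) 1 + (θ : Sp 3) 2| := by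
    rw [← abs_neg]; congr 1; ring
  have h5 : |(θ : Sp 3) 1 + (θ : Sp 3) 2| = |(θ : Sp 3) 1 + (θ : Sp 3) 2| := rfl
  unfold lam
  fin_cases b <;> fin_cases b' <;> first | exact absurd rfl h | skip
  all_goals simp [be, ga]
  all_goals first
    | exact (by norm_num at h1 ⊢; exact h1.le)
    | exact (by norm_num at h2 ⊢; exact h2.le)
    | exact (by rw [h4]; norm_num at h3 ⊢; exact h3.le)
    | exact (by norm_num at h3 ⊢; exact h3.le)

/-- closeness forces agreement of the digits -/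
theorem agree_of_close (hθ : θ ∈ U₀) {ω ω' : ℕ → Fin 3 × Fin 3} {m : ℕ}
    (h : |ell θ (Phi ω) - ell θ (Phi ω')| < (1 / 100) ^ m / 50) :
    ∀ i < m, (ω i).2 = (ω' i).2 := by
  by_contra hcon
  push Not at hcon
  classical
  have hex : ∃ i, (ω i).2 ≠ (ω' i).2 := by
    obtain ⟨i, -, hi⟩ := hcon
    exact ⟨i, hi⟩
  set i := Nat.find hex with hi
  have h1 : (ω i).2 ≠ (ω' i).2 := Nat.find_spec hex
  have h2 : ∀ j < i, (ω j).2 = (ω' j).2 := fun j hj => by
    by_contra h3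
    exact Nat.find_min hex hj h3
  have h3 : i < m := by
    obtain ⟨j, hj, hj'⟩ := hcon
    exact (Nat.find_min' hex hj').trans_lt hj
  have h4 := le_abs_val (a := fun n => lam θ (ω n) - lam θ (ω' n)) (fun n => by
    have := abs_lam θ (ω n)
    have := abs_lam θ (ω' n)
    calc |lam θ (ω n) - lam θ (ω' n)| ≤ |lam θ (ω n)| + |lam θ (ω' n)| := abs_sub _ _
      _ ≤ 2 := by linarith) i (fun j hj => by
    simp only [lam, h2 j hj, sub_self]) (lam_sep hθ h1)
  rw [← val_sub (B := 1) (fun n => abs_lam θ _) (fun n => abs_lam θ _), ← ell_Phi, ← ell_Phi] at h4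
  have h5 : (1 / 100 : ℝ) ^ m ≤ (1 / 100) ^ i :=
    pow_le_pow_of_le_one (by norm_num) (by norm_num) h3.le
  linarith

theorem close_of_agree {ω ω' : ℕ → Fin 3 × Fin 3} {n : ℕ} (h : ∀ i < n, (ω i).2 = (ω' i).2) :
    |ell θ (Phi ω) - ell θ (Phi ω')| ≤ (1 / 100) ^ n * 2 := by
  rw [ell_Phi, ell_Phi, val_sub (B := 1) (fun n => abs_lam θ _) (fun n => abs_lam θ _)]
  refine abs_val_le_of_agree (fun n => ?_) n fun j hj => ?_
  · have := abs_lam θ (ω n)
    have := abs_lam θ (ω' n)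
    calc |lam θ (ω n) - lam θ (ω' n)| ≤ |lam θ (ω n)| + |lam θ (ω' n)| := abs_sub _ _
      _ ≤ 2 := by linarith
  · simp only [lam, h j hj, sub_self]

/-- the upper bound -/
theorem upper (hθ : θ ∈ U₀) : AssouadBound (shadow θ F₀) (5 / 4) := by
  classical
  refine ⟨3280, by norm_num, fun R r hr hrR x hx => ?_⟩
  have hR : 0 < R := hr.trans hrR
  have hq : 1 < R / r := by rwa [one_lt_div hr]
  -- choose `n`
  obtain ⟨n, hn1, hn2⟩ : ∃ n : ℕ, (1 / 100 : ℝ) ^ n ≤ r / 40 ∧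
      (n = 0 ∨ r / 40 ≤ (1 / 100) ^ (n - 1)) := by
    rcases le_or_gt 1 (r / 40) with h | h
    · exact ⟨0, by simpa using h, Or.inl rfl⟩
    · obtain ⟨k, h1, h2⟩ := exists_nat_pow_near_of_lt_one (show 0 < r / 40 by positivity) h.le
        (show (0 : ℝ) < 1 / 100 by norm_num) (by norm_num)
      exact ⟨k + 1, h1.le, Or.inr (by simpa using h2)⟩
  -- choose `m`
  obtain ⟨m, hm1, hm2⟩ : ∃ m : ℕ, (1 / 100 : ℝ) ^ (m + 1) ≤ 100 * R ∧
      (m = 0 ∨ 100 * R ≤ (1 / 100) ^ m) := by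
    rcases le_or_gt 1 (100 * R) with h | h
    · exact ⟨0, by norm_num; linarith, Or.inl rfl⟩
    · obtain ⟨k, h1, h2⟩ := exists_nat_pow_near_of_lt_one (show 0 < 100 * R by positivity) h.le
        (show (0 : ℝ) < 1 / 100 by norm_num) (by norm_num)
      exact ⟨k, h1.le, Or.inr h2⟩
  set k := n - m with hk
  -- counting
  set Q : ℝ := (R / r) ^ (1 / 4 : ℝ) with hQ
  have hQ1 : 1 ≤ Q := Real.one_le_rpow hq.le (by norm_num)
  have hQ4 : Q ^ 4 = R / r := by
    rw [hQ, ← Real.rpow_natCast, ← Real.rpow_mul (by positivity)]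
    norm_num
  have h3k : (3 : ℝ) ^ k ≤ 80 * Q := by
    rcases Nat.eq_zero_or_pos k with h0 | hpos
    · rw [h0, pow_zero]; linarith
    · have hn0 : n ≠ 0 := by omega
      have hn3 := hn2.resolve_left hn0
      have hn4 : n - 1 = m + (k - 1) := by omega
      have h1 : (100 : ℝ) ^ k ≤ 40000000 * (R / r) := by
        have h2 : (100 : ℝ) ^ k * (r / 40) ≤ 1000000 * R := by
          calc (100 : ℝ) ^ k * (r / 40) ≤ 100 ^ k * (1 / 100) ^ (n - 1) := by gcongr
            _ = 100 * (100 ^ (k - 1) * (1 / 100) ^ (k - 1)) * (1 / 100) ^ m := by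
                rw [hn4, pow_add]
                have : (100 : ℝ) ^ k = 100 * 100 ^ (k - 1) := by
                  rw [← pow_succ']; congr 1; omega
                rw [this]; ring
            _ = 10000 * (1 / 100) ^ (m + 1) := by
                rw [← mul_pow]; norm_num; ring
            _ ≤ 10000 * (100 * R) := by gcongr
            _ = 1000000 * R := by ring
        rw [mul_div_assoc', le_div_iff₀ hr]
        linarith
      have h4 : ((3 : ℝ) ^ k) ^ 4 ≤ (80 * Q) ^ 4 := by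
        have h5 : ((3 : ℝ) ^ k) ^ 4 = 81 ^ k := by
          rw [← pow_mul, mul_comm, pow_mul]; norm_num
        have h6 : (81 : ℝ) ^ k ≤ 100 ^ k := pow_le_pow_left₀ (by norm_num) (by norm_num) k
        rw [h5, mul_pow, hQ4]
        have : 0 < R / r := by positivity
        norm_num
        linarith
      exact le_of_pow_le_pow_left₀ (by norm_num) (by positivity) h4
  -- the code
  have hω : ∀ y : Sp 3, ∃ ω : ℕ → Fin 3 × Fin 3, y ∈ shadow θ F₀ → y = pr θ (Phi ω) := by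
    intro y
    by_cases hy : y ∈ shadow θ F₀
    · obtain ⟨_, ⟨ω, rfl⟩, h⟩ := hy
      exact ⟨ω, fun _ => h.symm⟩
    · exact ⟨fun _ => (0, 0), fun h => absurd h hy⟩
  choose ω hω using hω
  set J : ℕ := ⌊2 * R / (r / 20)⌋₊ with hJ
  let code : Sp 3 → (Fin k → Fin 3) × Fin (J + 1) := fun y =>
    (fun i => (ω y (m + i)).2, Fin.ofNat (J + 1) ⌊(y 0 - x 0 + R) / (r / 20)⌋₊)
  have hfirst : ∀ v : Sp 3, |v 0| ≤ ‖v‖ := fun v => by
    have := norm_sq_three v
    rw [← sq_le_sq₀ (abs_nonneg _) (norm_nonneg _), sq_abs, this]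
    nlinarith [sq_nonneg (v 1), sq_nonneg (v 2)]
  refine ⟨_, hasCover_of_code code ?_, ?_⟩
  · rintro y ⟨hyb, hyF⟩ z ⟨hzb, hzF⟩ hcode
    rw [mem_ball, dist_eq_norm] at hyb hzb
    have hyz : ‖y - z‖ < 2 * R := by
      have h1 : y - z = (y - x) - (z - x) := by abel
      rw [h1]
      exact (norm_sub_le _ _).trans_lt (by linarith)
    have hperp : inner ℝ (θ : Sp 3) (y - z) = (0 : ℝ) := by
      rw [hω y hyF, hω z hzF, inner_sub_right, inner_pr, inner_pr, sub_zero]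
    have hell : ell θ (y - z) = ell θ (Phi (ω y)) - ell θ (Phi (ω z)) := by
      rw [← ell_sub]
      nth_rw 1 [hω y hyF]
      nth_rw 1 [hω z hzF]
      rw [ell_pr, ell_pr]
    have hid := norm_identity θ hperp
    have hκ1 : (θ : Sp 3) 1 ^ 2 + (θ : Sp 3) 2 ^ 2 ≤ 1 := by
      have := theta_sq θ
      nlinarith [sq_nonneg ((θ : Sp 3) 0)]
    have hκ2 : 1 / 100 ≤ (θ : Sp 3) 1 ^ 2 + (θ : Sp 3) 2 ^ 2 := by
      have h1 := hθ.1
      rw [← sq_abs ((θ : Sp 3) 1)]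
      nlinarith [sq_nonneg ((θ : Sp 3) 2)]
    have hellR : |ell θ (y - z)| < 2 * R := by
      refine lt_of_le_of_lt ?_ hyz
      rw [← sq_le_sq₀ (abs_nonneg _) (norm_nonneg _), sq_abs]
      nlinarith [sq_nonneg ((y - z) 0), sq_nonneg ‖y - z‖]
    have hagree : ∀ i < n, (ω y i).2 = (ω z i).2 := by
      intro i hi
      rcases Nat.lt_or_ge i m with him | him
      · rcases hm2 with h0 | h0
        · omega
        · refine agree_of_close hθ (m := m) ?_ i him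
          rw [← hell]
          linarith
      · have h1 := congrFun (congrArg Prod.fst hcode) ⟨i - m, by omega⟩
        simp only [code] at h1
        rwa [Nat.add_sub_cancel' him] at h1
    have hell2 : |ell θ (y - z)| ≤ r / 20 := by
      rw [hell]
      have := close_of_agree (θ := θ) hagree
      linarith
    have hρ : 0 < r / 20 := by positivity
    have hbd : ∀ w : Sp 3, ‖w - x‖ < R → 0 ≤ (w 0 - x 0 + R) / (r / 20) ∧
        ⌊(w 0 - x 0 + R) / (r / 20)⌋₊ < J + 1 := by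
      intro w hw
      have h1 := (hfirst (w - x)).trans_lt hw
      have h2 : (w - x) 0 = w 0 - x 0 := rfl
      rw [h2, abs_lt] at h1
      refine ⟨div_nonneg (by linarith) hρ.le, ?_⟩
      rw [Nat.lt_succ_iff, hJ]
      apply Nat.floor_le_floor
      gcongr
      linarith
    have hfloor : ⌊(y 0 - x 0 + R) / (r / 20)⌋₊ = ⌊(z 0 - x 0 + R) / (r / 20)⌋₊ := by
      have h1 := congrArg Fin.val (congrArg Prod.snd hcode)
      simp only [code, Fin.val_ofNat] at h1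
      rwa [Nat.mod_eq_of_lt (hbd y hyb).2, Nat.mod_eq_of_lt (hbd z hzb).2] at h1
    have hcoord : |(y - z) 0| ≤ r / 20 := by
      have h1 : (y - z) 0 = y 0 - z 0 := rfl
      have a1 := Nat.floor_le (hbd y hyb).1
      have a2 := Nat.lt_floor_add_one ((y 0 - x 0 + R) / (r / 20))
      have a3 := Nat.floor_le (hbd z hzb).1
      have a4 := Nat.lt_floor_add_one ((z 0 - x 0 + R) / (r / 20))
      rw [hfloor] at a1 a2
      have b1 : (y 0 - x 0 + R) / (r / 20) - (z 0 - x 0 + R) / (r / 20) = (y 0 - z 0) / (r / 20) := by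
        ring
      have b2 : |(y 0 - z 0) / (r / 20)| ≤ 1 := by
        rw [← b1, abs_le]; constructor <;> linarith
      rw [abs_div, abs_of_pos hρ, div_le_one hρ] at b2
      rw [h1]; exact b2
    rw [dist_eq_norm]
    have s1 : ell θ (y - z) ^ 2 ≤ (r / 20) ^ 2 := by
      rw [← sq_abs]; gcongr
    have s2 : (y - z) 0 ^ 2 ≤ (r / 20) ^ 2 := by
      rw [← sq_abs]; gcongr
    have s3 : 1 / 100 * ‖y - z‖ ^ 2 ≤ ((θ : Sp 3) 1 ^ 2 + (θ : Sp 3) 2 ^ 2) * ‖y - z‖ ^ 2 := by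
      gcongr
    have s4 : ‖y - z‖ ^ 2 ≤ r ^ 2 := by nlinarith
    exact (sq_le_sq₀ (norm_nonneg _) hr.le).1 s4
  · have h1 : (Fintype.card ((Fin k → Fin 3) × Fin (J + 1)) : ℝ) = 3 ^ k * (J + 1) := by
      simp
    rw [h1]
    have h2 : (J : ℝ) ≤ 40 * (R / r) := by
      have := Nat.floor_le (show 0 ≤ 2 * R / (r / 20) by positivity)
      have h3 : 2 * R / (r / 20) = 40 * (R / r) := by field_simp; ring
      rw [hJ, ← h3]
      exact this
    have h3 : (R / r) ^ (5 / 4 : ℝ) = Q * (R / r) := by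
      have : (5 / 4 : ℝ) = 1 / 4 + 1 := by norm_num
      rw [this, Real.rpow_add (by positivity), Real.rpow_one]
    rw [h3]
    calc (3 : ℝ) ^ k * (J + 1) ≤ (80 * Q) * (41 * (R / r)) := by
          gcongr
          linarith
      _ = 3280 * (Q * (R / r)) := by ring

/-- the lower bound -/
theorem lower (hθ : θ ∈ U₀) {s : ℝ} (hs : AssouadBound (shadow θ F₀) s) : 1 ≤ s := by
  classical
  refine one_le_of_progressions (fun M => ?_) hs
  obtain ⟨N, x, hx, hx'⟩ := progression M (1 / 4) (by norm_num)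
  have hω : ∀ j : Fin (M + 1), ∃ ω : ℕ → Fin 3 × Fin 3, Phi ω = EuclideanSpace.single 0 (x j) := by
    intro j
    obtain ⟨a, ha⟩ := hx j (Nat.lt_succ_iff.1 j.2)
    refine ⟨fun n => (a n, 0), ?_⟩
    have hval0 : (val fun _ => (0 : ℝ)) = 0 := by simp [val]
    ext i
    fin_cases i
    · simp [Phi, ha]
    · simp [Phi, be, hval0]
    · simp [Phi, ga, hval0]
  choose ω hω using hω
  set e : Sp 3 := EuclideanSpace.single 0 1 with he
  set κ : ℝ := ‖pr θ e‖ with hκ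
  have hκpos : 0 < κ := by
    rw [hκ, norm_pos_iff]
    intro h0
    have h1 : ell θ e = 0 := by simp [ell, he]
    have h2 : (pr θ e) 0 = 1 - (θ : Sp 3) 0 ^ 2 := by
      rw [pr_apply, inner_three]
      simp [he]
      ring
    rw [h0] at h2
    have h3 := theta_sq θ
    have h4 := hθ.1
    have h5 : (0 : Sp 3) 0 = 0 := rfl
    rw [h5] at h2
    have h6 : (θ : Sp 3) 1 ^ 2 = |(θ : Sp 3) 1| ^ 2 := (sq_abs _).symm
    nlinarith [sq_nonneg ((θ : Sp 3) 2)]
  set L : ℝ := (1 / 100) ^ N / 2 with hL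
  have hLpos : 0 < L := by positivity
  have hdist : ∀ i j : Fin (M + 1), dist (pr θ (Phi (ω i))) (pr θ (Phi (ω j)))
      = |x i - x j| * κ := by
    intro i j
    rw [dist_eq_norm, pr_sub, hω i, hω j]
    have h1 : (EuclideanSpace.single 0 (x i) - EuclideanSpace.single 0 (x j) : Sp 3)
        = (x i - x j) • e := by
      ext k
      fin_cases k <;> simp [he]
    rw [h1]
    have h2 : pr θ ((x i - x j) • e) = (x i - x j) • pr θ e := by
      unfold pr; rw [map_smul]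
    rw [h2, norm_smul, Real.norm_eq_abs]
  have hdiff : ∀ i j : Fin (M + 1), |(x i - x j) - ((i : ℕ) - (j : ℕ) : ℝ) * L| ≤ 1 / 2 * L := by
    intro i j
    have h1 := hx' i (Nat.lt_succ_iff.1 i.2)
    have h2 := hx' j (Nat.lt_succ_iff.1 j.2)
    rw [abs_le] at h1 h2 ⊢
    constructor <;> linarith [h1.1, h1.2, h2.1, h2.2]
  refine ⟨L * κ, by positivity, fun j => pr θ (Phi (ω j)), fun j => ⟨_, ⟨ω j, rfl⟩, rfl⟩,
    fun i j hij => ?_, fun i j => ?_⟩
  · rw [hdist]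
    have h1 : (1 : ℝ) ≤ |((i : ℕ) - (j : ℕ) : ℝ)| := by
      have h2 : ((i : ℕ) : ℤ) - ((j : ℕ) : ℤ) ≠ 0 := by
        intro h0
        apply hij
        apply Fin.ext
        omega
      have h3 := Int.one_le_abs h2
      have h4 : |((i : ℕ) - (j : ℕ) : ℝ)| = ((|((i : ℕ) : ℤ) - ((j : ℕ) : ℤ)| : ℤ) : ℝ) := by
        push_cast; rfl
      rw [h4]
      exact_mod_cast h3
    have h2 := hdiff i j
    have h3 : L ≤ |((i : ℕ) - (j : ℕ) : ℝ) * L| := by
      rw [abs_mul, abs_of_pos hLpos]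
      nlinarith
    have h4 : |((i : ℕ) - (j : ℕ) : ℝ) * L| - |x i - x j|
        ≤ |(x i - x j) - ((i : ℕ) - (j : ℕ) : ℝ) * L| := by
      rw [abs_sub_comm (x i - x j) (((i : ℕ) - (j : ℕ) : ℝ) * L)]
      exact abs_sub_abs_le_abs_sub _ _
    have h5 : L / 2 ≤ |x i - x j| := by linarith
    calc L * κ / 2 = L / 2 * κ := by ring
      _ ≤ |x i - x j| * κ := by gcongr
  · rw [hdist]
    have h1 : |((i : ℕ) - (j : ℕ) : ℝ)| ≤ M := by
      have h2 : ((i : ℕ) : ℝ) ≤ M := by exact_mod_cast Nat.lt_succ_iff.1 i.2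
      have h3 : ((j : ℕ) : ℝ) ≤ M := by exact_mod_cast Nat.lt_succ_iff.1 j.2
      have h4 : (0 : ℝ) ≤ (i : ℕ) := Nat.cast_nonneg _
      have h5 : (0 : ℝ) ≤ (j : ℕ) := Nat.cast_nonneg _
      rw [abs_le]; constructor <;> linarith
    have h2 := hdiff i j
    have h3 : |x i - x j| ≤ |(x i - x j) - ((i : ℕ) - (j : ℕ) : ℝ) * L|
        + |((i : ℕ) - (j : ℕ) : ℝ) * L| := by
      have := abs_add_le ((x i - x j) - ((i : ℕ) - (j : ℕ) : ℝ) * L) (((i : ℕ) - (j : ℕ) : ℝ) * L)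
      rwa [sub_add_cancel] at this
    have h4 : |((i : ℕ) - (j : ℕ) : ℝ) * L| ≤ M * L := by
      rw [abs_mul, abs_of_pos hLpos]
      gcongr
    calc |x i - x j| * κ ≤ ((M + 1) * L) * κ := by
          gcongr
          linarith
      _ = (M + 1) * (L * κ) := by ring

theorem assouadDim_bounds (hθ : θ ∈ U₀) :
    1 ≤ assouadDim (shadow θ F₀) ∧ assouadDim (shadow θ F₀) ≤ 5 / 4 :=
  ⟨le_csInf ⟨5 / 4, by norm_num, upper hθ⟩ fun _ hs => lower hθ hs.2,
    csInf_le ⟨0, fun _ hs => hs.1⟩ ⟨by norm_num, upper hθ⟩⟩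

/-! ### Hausdorff dimension -/

theorem Phi_close {ω ω' : ℕ → Fin 3 × Fin 3} {n : ℕ} (h : ∀ i < n, ω i = ω' i) :
    ‖Phi ω - Phi ω'‖ ≤ 4 * (1 / 100) ^ n := by
  have hpow : (0 : ℝ) < (1 / 100) ^ n := by positivity
  have key : ∀ f : Fin 3 × Fin 3 → ℝ, (∀ p, |f p| ≤ 1) →
      |(val fun n => f (ω n)) - val fun n => f (ω' n)| ≤ (1 / 100) ^ n * 2 := by
    intro f hf
    rw [val_sub (B := 1) (fun n => hf _) (fun n => hf _)]
    refine abs_val_le_of_agree (fun n => ?_) n fun j hj => ?_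
    · have := hf (ω n)
      have := hf (ω' n)
      calc |f (ω n) - f (ω' n)| ≤ |f (ω n)| + |f (ω' n)| := abs_sub _ _
        _ ≤ 2 := by linarith
    · simp only [h j hj, sub_self]
  have h0 := key (fun p => al p.1) (fun p => abs_al _)
  have h1 := key (fun p => be p.2) (fun p => abs_be _)
  have h2 := key (fun p => ga p.2) (fun p => abs_ga _)
  have e0 : (Phi ω - Phi ω') 0 = (val fun n => al (ω n).1) - val fun n => al (ω' n).1 := rfl
  have e1 : (Phi ω - Phi ω') 1 = (val fun n => be (ω n).2) - val fun n => be (ω' n).2 := rfl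
  have e2 : (Phi ω - Phi ω') 2 = (val fun n => ga (ω n).2) - val fun n => ga (ω' n).2 := rfl
  rw [← sq_le_sq₀ (norm_nonneg _) (by positivity), norm_sq_three, e0, e1, e2]
  rw [← sq_le_sq₀ (abs_nonneg _) (by positivity), sq_abs] at h0 h1 h2
  nlinarith

theorem dimH_F₀ : dimH F₀ ≤ (1 / 2 : ℝ≥0) := by
  classical
  apply dimH_le_of_hausdorffMeasure_ne_top
  have h1 := Measure.hausdorffMeasure_le_liminf_sum (X := Sp 3) (β := ℕ)
    (ι := fun n => Fin n → Fin 3 × Fin 3)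
    ((1 / 2 : ℝ≥0) : ℝ) F₀ (l := atTop) (fun n => ENNReal.ofReal (4 * (1 / 100) ^ n)) (by
      rw [← ENNReal.ofReal_zero]
      refine ENNReal.tendsto_ofReal ?_
      have := (tendsto_pow_atTop_nhds_zero_of_lt_one (show (0 : ℝ) ≤ 1 / 100 by norm_num)
        (by norm_num)).const_mul 4
      rwa [mul_zero] at this)
    (fun n u => {x | ∃ ω : ℕ → Fin 3 × Fin 3, x = Phi ω ∧ ∀ i : Fin n, ω i = u i})
    (Eventually.of_forall fun n u => by
      refine ediam_le fun x hx y hy => ?_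
      obtain ⟨ω, rfl, hω⟩ := hx
      obtain ⟨ω', rfl, hω'⟩ := hy
      rw [edist_dist, dist_eq_norm]
      apply ENNReal.ofReal_le_ofReal
      refine Phi_close fun i hi => ?_
      rw [hω ⟨i, hi⟩, hω' ⟨i, hi⟩])
    (Eventually.of_forall fun n x hx => by
      obtain ⟨ω, rfl⟩ := hx
      exact mem_iUnion.2 ⟨fun i => ω i, ω, rfl, fun i => rfl⟩)
  refine ne_top_of_le_ne_top ?_ (h1.trans (Filter.liminf_le_of_le (a := 2) (by isBoundedDefault)
    fun b hb => ?_))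
  · exact ENNReal.ofNat_ne_top
  · obtain ⟨n, hn⟩ := hb.exists
    refine hn.trans ?_
    have h2 : ∀ u : Fin n → Fin 3 × Fin 3,
        ediam {x | ∃ ω : ℕ → Fin 3 × Fin 3, x = Phi ω ∧ ∀ i : Fin n, ω i = u i}
          ^ ((1 / 2 : ℝ≥0) : ℝ) ≤ ENNReal.ofReal (2 * (1 / 10) ^ n) := by
      intro u
      have h3 : ediam {x | ∃ ω : ℕ → Fin 3 × Fin 3, x = Phi ω ∧ ∀ i : Fin n, ω i = u i}
          ≤ ENNReal.ofReal (4 * (1 / 100) ^ n) := by
        refine ediam_le fun x hx y hy => ?_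
        obtain ⟨ω, rfl, hω⟩ := hx
        obtain ⟨ω', rfl, hω'⟩ := hy
        rw [edist_dist, dist_eq_norm]
        apply ENNReal.ofReal_le_ofReal
        refine Phi_close fun i hi => ?_
        rw [hω ⟨i, hi⟩, hω' ⟨i, hi⟩]
      refine (ENNReal.rpow_le_rpow h3 (by positivity)).trans (le_of_eq ?_)
      rw [ENNReal.ofReal_rpow_of_nonneg (by positivity) (by positivity)]
      congr 1
      have h4 : (4 * (1 / 100) ^ n : ℝ) = (2 * (1 / 10) ^ n) ^ 2 := by
        rw [mul_pow, ← pow_mul, mul_comm n 2, pow_mul]; norm_num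
      rw [h4, ← Real.rpow_natCast, ← Real.rpow_mul (by positivity)]
      norm_num
    calc ∑ u : Fin n → Fin 3 × Fin 3,
          ediam {x | ∃ ω : ℕ → Fin 3 × Fin 3, x = Phi ω ∧ ∀ i : Fin n, ω i = u i}
            ^ ((1 / 2 : ℝ≥0) : ℝ)
        ≤ ∑ _u : Fin n → Fin 3 × Fin 3, ENNReal.ofReal (2 * (1 / 10) ^ n) :=
          Finset.sum_le_sum fun u _ => h2 u
      _ = ENNReal.ofReal (9 ^ n * (2 * (1 / 10) ^ n)) := by
          rw [Finset.sum_const, nsmul_eq_mul, ENNReal.ofReal_mul (by positivity)]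
          simp
      _ ≤ ENNReal.ofReal 2 := by
          apply ENNReal.ofReal_le_ofReal
          have : (9 : ℝ) ^ n * (2 * (1 / 10) ^ n) = 2 * (9 / 10) ^ n := by
            rw [div_pow, div_pow]; ring
          rw [this]
          have := pow_le_one₀ (n := n) (show (0 : ℝ) ≤ 9 / 10 by norm_num) (by norm_num)
          linarith
      _ = 2 := by simp

theorem dimH_shadow (θ : sphere (0 : Sp 3) 1) : dimH (shadow θ F₀) ≤ (1 / 2 : ℝ≥0) := by
  have h : LipschitzWith 1 (Submodule.span ℝ {(θ : Sp 3)})ᗮ.starProjection := by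
    refine LipschitzWith.of_dist_le_mul fun x y => ?_
    rw [dist_eq_norm, dist_eq_norm, ← map_sub, NNReal.coe_one, one_mul]
    exact (ContinuousLinearMap.le_opNorm _ _).trans
      (mul_le_of_le_one_left (norm_nonneg _) (Submodule.starProjection_norm_le _))
  exact (h.dimH_image_le F₀).trans dimH_F₀

end Pool.Agent.V1197.AP
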