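import Pool.Agent.V1197.AP.Digits
import Pool.Agent.V1197.AP.Cover

set_option autoImplicit false

/-!
# Self-similar sets in `ℝ³` whose projections have an intermediate Assouad dimension
-/

namespace Pool.Agent.V1197.AP

open Set Metric Filter Topology MeasureTheory

/-- Euclidean space `ℝ^d` -/
abbrev Sp (d : ℕ) : Type := EuclideanSpace ℝ (Fin d)

/-- the orthogonal group `O(d)`: the linear isometries of `ℝ^d` -/
abbrev Iso (d : ℕ) : Type := Sp d ≃ₗᵢ[ℝ] Sp d

/-- the unit cube -/
def cube (d : ℕ) : Set (Sp d) := {x | ∀ j, 0 ≤ x j ∧ x j ≤ 1}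

/-- the similarity `x ↦ c O x + t` -/
noncomputable def sim {d : ℕ} (c : ℝ) (O : Iso d) (t : Sp d) (x : Sp d) : Sp d := c • O x + t

/-- `F` is a self-similar set in the unit cube: the attractor of finitely many contracting
similarities mapping the unit cube into itself -/
def IsSelfSimilar {d : ℕ} (F : Set (Sp d)) : Prop :=
  ∃ (n : ℕ) (c : Fin n → ℝ) (O : Fin n → Iso d) (t : Fin n → Sp d),
    (∀ i, 0 < c i ∧ c i < 1) ∧ (∀ i, MapsTo (sim (c i) (O i) (t i)) (cube d) (cube d)) ∧
    F.Nonempty ∧ IsCompact F ∧ F ⊆ cube d ∧ F = ⋃ i, sim (c i) (O i) (t i) '' F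

/-- the orthogonal projection of `F` to the plane orthogonal to the unit vector `θ` -/
noncomputable def shadow (θ : sphere (0 : Sp 3) 1) (F : Set (Sp 3)) : Set (Sp 3) :=
  (Submodule.span ℝ {(θ : Sp 3)})ᗮ.starProjection '' F

/-! ### The set -/

/-- second coordinate of the digit -/
noncomputable def be : Fin 3 → ℝ := ![0, 1, 0]

/-- third coordinate of the digit -/
noncomputable def ga : Fin 3 → ℝ := ![0, 0, 1]

theorem abs_be (i : Fin 3) : |be i| ≤ 1 := by fin_cases i <;> simp [be]

theorem abs_ga (i : Fin 3) : |ga i| ≤ 1 := by fin_cases i <;> simp [ga]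

/-- the coding map -/
noncomputable def Phi (ω : ℕ → Fin 3 × Fin 3) : Sp 3 :=
  !₂[val fun n => al (ω n).1, val fun n => be (ω n).2, val fun n => ga (ω n).2]

/-- the self-similar set -/
noncomputable def F₀ : Set (Sp 3) := range Phi

/-- the translation vectors -/
noncomputable def tau (p : Fin 3 × Fin 3) : Sp 3 := !₂[al p.1 / 2, be p.2 / 2, ga p.2 / 2]

theorem Phi_cons (ω : ℕ → Fin 3 × Fin 3) :
    Phi ω = (1 / 100 : ℝ) • Phi (fun n => ω (n + 1)) + tau (ω 0) := by
  ext j
  fin_cases j
  · have := val_succ (a := fun n => al (ω n).1) (B := 1) (fun n => abs_al _)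
    simp [Phi, tau] at this ⊢
    linarith
  · have := val_succ (a := fun n => be (ω n).2) (B := 1) (fun n => abs_be _)
    simp [Phi, tau] at this ⊢
    linarith
  · have := val_succ (a := fun n => ga (ω n).2) (B := 1) (fun n => abs_ga _)
    simp [Phi, tau] at this ⊢
    linarith

theorem continuous_val_comp {κ : Type} [TopologicalSpace κ] [DiscreteTopology κ] (f : κ → ℝ)
    (hf : ∀ i, |f i| ≤ 1) : Continuous fun ω : ℕ → κ => val fun n => f (ω n) := by
  unfold val
  refine continuous_tsum (u := fun n => (1 / 100 : ℝ) ^ n * (1 / 2)) (fun n => ?_)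
    ((summable_geometric_of_lt_one (by norm_num) (by norm_num)).mul_right _) fun n ω => ?_
  · exact continuous_const.mul (((continuous_of_discreteTopology (f := f)).comp
      (continuous_apply n)).div_const _)
  · rw [norm_mul, norm_pow, Real.norm_eq_abs, Real.norm_eq_abs,
      abs_of_pos (by norm_num : (0 : ℝ) < 1 / 100), abs_div, abs_two]
    have := hf (ω n)
    gcongr

theorem continuous_Phi : Continuous Phi := by
  have h1 := continuous_val_comp (κ := Fin 3 × Fin 3) (fun p => al p.1) (fun p => abs_al _)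
  have h2 := continuous_val_comp (κ := Fin 3 × Fin 3) (fun p => be p.2) (fun p => abs_be _)
  have h3 := continuous_val_comp (κ := Fin 3 × Fin 3) (fun p => ga p.2) (fun p => abs_ga _)
  unfold Phi
  refine (PiLp.continuous_toLp 2 _).comp (continuous_pi fun j => ?_)
  fin_cases j
  · exact h1
  · exact h2
  · exact h3

theorem al_nonneg (i : Fin 3) : 0 ≤ al i := by
  have := t_nonneg
  fin_cases i <;> simp [al, this]

theorem be_nonneg (i : Fin 3) : 0 ≤ be i := by fin_cases i <;> simp [be]

theorem ga_nonneg (i : Fin 3) : 0 ≤ ga i := by fin_cases i <;> simp [ga]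

theorem val_mem {a : ℕ → ℝ} (h0 : ∀ n, 0 ≤ a n) (h1 : ∀ n, |a n| ≤ 1) :
    0 ≤ val a ∧ val a ≤ 1 := by
  refine ⟨tsum_nonneg fun n => mul_nonneg (by positivity) (by have := h0 n; positivity), ?_⟩
  have := (le_abs_self _).trans (abs_val_le h1)
  linarith

theorem Phi_mem_cube (ω : ℕ → Fin 3 × Fin 3) : Phi ω ∈ cube 3 := by
  intro j
  fin_cases j
  · exact val_mem (fun n => al_nonneg _) (fun n => abs_al _)
  · exact val_mem (fun n => be_nonneg _) (fun n => abs_be _)
  · exact val_mem (fun n => ga_nonneg _) (fun n => abs_ga _)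

theorem isSelfSimilar : IsSelfSimilar F₀ := by
  let e : Fin 9 ≃ Fin 3 × Fin 3 := (finProdFinEquiv (m := 3) (n := 3)).symm
  refine ⟨9, fun _ => 1 / 100, fun _ => 1, fun i => tau (e i), fun _ => by norm_num, ?_, ?_, ?_,
    ?_, ?_⟩
  · intro i x hx j
    have h1 := hx j
    have h2 : (sim (1 / 100) (1 : Iso 3) (tau (e i)) x) j = (1 / 100) * x j + tau (e i) j := by
      simp [sim]
    rw [h2]
    have h3 : 0 ≤ tau (e i) j ∧ tau (e i) j ≤ 1 / 2 := by
      have ha := al_nonneg (e i).1
      have ha' := (le_abs_self _).trans (abs_al (e i).1)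
      have hb := be_nonneg (e i).2
      have hb' := (le_abs_self _).trans (abs_be (e i).2)
      have hc := ga_nonneg (e i).2
      have hc' := (le_abs_self _).trans (abs_ga (e i).2)
      fin_cases j <;> simp [tau] <;> constructor <;> linarith
    constructor <;> linarith [h1.1, h1.2, h3.1, h3.2]
  · exact ⟨_, fun _ => (0, 0), rfl⟩
  · exact isCompact_range continuous_Phi
  · rintro _ ⟨ω, rfl⟩
    exact Phi_mem_cube ω
  · ext x
    simp only [mem_iUnion]
    constructor
    · rintro ⟨ω, rfl⟩
      refine ⟨e.symm (ω 0), Phi (fun n => ω (n + 1)), ⟨_, rfl⟩, ?_⟩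
      simp only [Equiv.apply_symm_apply]
      exact (Phi_cons ω).symm
    · rintro ⟨i, _, ⟨ω, rfl⟩, rfl⟩
      refine ⟨fun n => Nat.casesOn n (e i) ω, ?_⟩
      exact Phi_cons (fun n => Nat.casesOn n (e i) ω)

/-- the set is not contained in a hyperplane -/
theorem not_in_hyperplane (f : Sp 3 →ₗ[ℝ] ℝ) (a : ℝ) (hf : ∀ x ∈ F₀, f x = a) : f = 0 := by
  have h0 : a = 0 := by
    have h1 := hf (Phi fun _ => (0, 0)) ⟨_, rfl⟩
    have h2 : Phi (fun _ => (0, 0)) = 0 := by
      ext j
      fin_cases j <;> simp [Phi, val, al, be, ga]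
    rw [h2, map_zero] at h1
    exact h1.symm
  have hval : (val fun _ => (1 : ℝ)) ≠ 0 := by
    have h1 := val_succ (a := fun _ => (1 : ℝ)) (B := 1) (fun n => by simp)
    intro h2
    rw [h2] at h1
    norm_num at h1
  have hval0 : (val fun _ => (0 : ℝ)) = 0 := by simp [val]
  have key : ∀ (p : Fin 3 × Fin 3) (j : Fin 3), (Phi fun _ => p) = EuclideanSpace.single j
      (val fun _ => (1 : ℝ)) → f (EuclideanSpace.single j 1) = 0 := by
    intro p j hp
    have h1 := hf (Phi fun _ => p) ⟨_, rfl⟩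
    rw [hp, h0] at h1
    have h2 : EuclideanSpace.single j (val fun _ => (1 : ℝ))
        = (val fun _ => (1 : ℝ)) • (EuclideanSpace.single j (1 : ℝ) : Sp 3) := by
      ext k
      simp
    rw [h2, map_smul, smul_eq_mul] at h1
    exact (mul_eq_zero.1 h1).resolve_left hval
  have k0 := key (1, 0) 0 (by
    ext j; fin_cases j <;> simp [Phi, al, be, ga, hval0])
  have k1 := key (0, 1) 1 (by
    ext j; fin_cases j <;> simp [Phi, al, be, ga, hval0])
  have k2 := key (0, 2) 2 (by
    ext j; fin_cases j <;> simp [Phi, al, be, ga, hval0])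
  refine (EuclideanSpace.basisFun (Fin 3) ℝ).toBasis.ext fun j => ?_
  rw [OrthonormalBasis.coe_toBasis, EuclideanSpace.basisFun_apply, LinearMap.zero_apply]
  fin_cases j
  · exact k0
  · exact k1
  · exact k2

end Pool.Agent.V1197.AP
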